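import Mathlib

/-!
# C/Cheeger. Cheeger's inequality for a finite graph

Every lemma is a job item; the whole file is one job. Proofs in the docstrings.
-/

open Finset

namespace RST.C

variable {V : Type} [Fintype V]

open Classical in
/-- (1) Level sets. PROOF. Strong induction on `(S.filter fun u => 0 < a u).card`. Let `X` be that
filter. If `X = ∅` then `a = 0` on `S`. Otherwise `t := min of a on X > 0`, `a' u := if u ∈ X then
a u - t else a u` (on `S` it is `max (a u - t) 0`); the support of `a'` is strictly smaller; for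
`(u,v)` with `u ∈ X`, `v ∈ S \ X`: `|a u - a v| = |a' u - a' v| + t`, same for `(v,u)` (symmetry of
`F`), for the other pairs of `S ×ˢ S` the two absolute values agree. So the left side for `a` is the
one for `a'` plus `2 t * e(X, S \ X) ≥ 2 t h |X|`, and `∑ a = ∑ a' + t |X|`. -/
theorem level_sum (S : Finset V) (F : V → V → Prop) (hF : ∀ u v, F u v → F v u) (h : ℝ)
    (hexp : ∀ X ⊆ S, 2 * X.card ≤ S.card →
      h * X.card ≤ ((X ×ˢ (S \ X)).filter fun p => F p.1 p.2).card) (a : V → ℝ)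
    (ha : ∀ u ∈ S, 0 ≤ a u) (hs : 2 * (S.filter fun u => 0 < a u).card ≤ S.card) :
    2 * h * ∑ u ∈ S, a u ≤ ∑ p ∈ (S ×ˢ S).filter (fun p => F p.1 p.2), |a p.1 - a p.2| := by
  induction hn : (S.filter fun u => 0 < a u).card using Nat.strong_induction_on generalizing a with
  | _ n ih =>
    set X := S.filter fun u => 0 < a u with hX
    have hXS : X ⊆ S := filter_subset _ _
    rcases X.eq_empty_or_nonempty with hXe | hXne
    · have hz : ∀ u ∈ S, a u = 0 := by
        intro u hu
        by_contra hne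
        have hpos : 0 < a u := lt_of_le_of_ne (ha u hu) (Ne.symm hne)
        have : u ∈ X := by
          rw [hX, mem_filter]
          exact ⟨hu, hpos⟩
        rw [hXe] at this
        simp at this
      rw [sum_eq_zero hz, mul_zero]
      exact sum_nonneg fun p _ => abs_nonneg _
    · obtain ⟨u0, hu0, hmin⟩ := exists_min_image X a hXne
      have hu0S : u0 ∈ S := hXS hu0
      set t := a u0 with ht
      have ht0 : 0 < t := (mem_filter.1 hu0).2
      set a' : V → ℝ := fun u => if u ∈ X then a u - t else a u with ha'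
      have hin : ∀ u ∈ X, a' u = a u - t := fun u hu => by simp [ha', hu]
      have hout : ∀ u, u ∉ X → a' u = a u := fun u hu => by simp [ha', hu]
      have hzero : ∀ u ∈ S, u ∉ X → a u = 0 := by
        intro u hu huX
        by_contra hne
        exact huX (mem_filter.2 ⟨hu, lt_of_le_of_ne (ha u hu) (Ne.symm hne)⟩)
      have ha'0 : ∀ u ∈ S, 0 ≤ a' u := by
        intro u hu
        by_cases hux : u ∈ X
        · rw [hin u hux]
          have := hmin u hux
          linarith
        · rw [hout u hux]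
          exact ha u hu
      have hsub : (S.filter fun u => 0 < a' u) ⊆ X.erase u0 := by
        intro u hu
        rw [mem_filter] at hu
        by_cases hux : u ∈ X
        · rw [mem_erase]
          refine ⟨?_, hux⟩
          rintro rfl
          rw [hin _ hux] at hu
          linarith [hu.2]
        · rw [hout u hux, hzero u hu.1 hux] at hu
          exact absurd hu.2 (lt_irrefl _)
      have hcard : (S.filter fun u => 0 < a' u).card < n := by
        refine lt_of_le_of_lt (card_le_card hsub) ?_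
        rw [← hn]
        exact card_erase_lt_of_mem hu0
      have hih := ih _ hcard a' ha'0 (by omega) rfl
      have hsum : ∑ u ∈ S, a u = ∑ u ∈ S, a' u + t * X.card := by
        have h1 : ∀ u ∈ S, a u = a' u + if u ∈ X then t else 0 := by
          intro u _
          by_cases hux : u ∈ X
          · rw [hin u hux, if_pos hux]
            ring
          · rw [hout u hux, if_neg hux]
            ring
        rw [sum_congr rfl h1, sum_add_distrib, sum_ite_mem, inter_eq_right.2 hXS, sum_const,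
          nsmul_eq_mul]
        ring
      have hpt : ∀ p ∈ (S ×ˢ S).filter (fun p => F p.1 p.2), |a p.1 - a p.2| =
          |a' p.1 - a' p.2| + t * ((if p.1 ∈ X ∧ p.2 ∉ X then (1 : ℝ) else 0) +
            (if p.1 ∉ X ∧ p.2 ∈ X then (1 : ℝ) else 0)) := by
        intro p hp
        rw [mem_filter, mem_product] at hp
        obtain ⟨⟨h1, h2⟩, _⟩ := hp
        by_cases hx : p.1 ∈ X <;> by_cases hy : p.2 ∈ X
        · rw [hin _ hx, hin _ hy]
          simp [hx, hy]
        · have e1 := hmin _ hx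
          rw [hin _ hx, hout _ hy, hzero _ h2 hy]
          simp only [hx, hy, not_true_eq_false, not_false_eq_true, and_self, if_true, false_and,
            and_false, if_false, sub_zero]
          rw [abs_of_nonneg (by linarith : (0 : ℝ) ≤ a p.1),
            abs_of_nonneg (by linarith : (0 : ℝ) ≤ a p.1 - t)]
          ring
        · have e1 := hmin _ hy
          rw [hin _ hy, hout _ hx, hzero _ h1 hx]
          simp only [hx, hy, not_true_eq_false, not_false_eq_true, and_self, if_true, false_and,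
            and_false, if_false, zero_sub]
          rw [abs_neg, abs_neg, abs_of_nonneg (by linarith : (0 : ℝ) ≤ a p.2),
            abs_of_nonneg (by linarith : (0 : ℝ) ≤ a p.2 - t)]
          ring
        · rw [hout _ hx, hout _ hy]
          simp [hx, hy]
      have hc1 : ∑ p ∈ (S ×ˢ S).filter (fun p => F p.1 p.2),
          (if p.1 ∈ X ∧ p.2 ∉ X then (1 : ℝ) else 0) =
          ((X ×ˢ (S \ X)).filter fun p => F p.1 p.2).card := by
        rw [sum_boole, filter_filter]
        congr 2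
        ext p
        simp only [mem_filter, mem_product, mem_sdiff]
        constructor
        · rintro ⟨⟨h1, h2⟩, h3, h4, h5⟩
          exact ⟨⟨h4, h2, h5⟩, h3⟩
        · rintro ⟨⟨h4, h2, h5⟩, h3⟩
          exact ⟨⟨hXS h4, h2⟩, h3, h4, h5⟩
      have hc2 : ∑ p ∈ (S ×ˢ S).filter (fun p => F p.1 p.2),
          (if p.1 ∉ X ∧ p.2 ∈ X then (1 : ℝ) else 0) =
          ((X ×ˢ (S \ X)).filter fun p => F p.1 p.2).card := by
        rw [sum_boole, filter_filter]
        congr 1
        refine card_bij (fun p _ => (p.2, p.1)) ?_ ?_ ?_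
        · intro p hp
          simp only [mem_filter, mem_product, mem_sdiff] at hp ⊢
          obtain ⟨⟨h1, h2⟩, h3, h4, h5⟩ := hp
          exact ⟨⟨h5, h1, h4⟩, hF _ _ h3⟩
        · intro p _ p' _ hpp
          simp only [Prod.mk.injEq] at hpp
          exact Prod.ext hpp.2 hpp.1
        · intro p hp
          simp only [mem_filter, mem_product, mem_sdiff] at hp
          obtain ⟨⟨h4, h2, h5⟩, h3⟩ := hp
          refine ⟨(p.2, p.1), ?_, rfl⟩
          simp only [mem_filter, mem_product]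
          exact ⟨⟨h2, hXS h4⟩, hF _ _ h3, h5, h4⟩
      have hX2 := hexp X hXS hs
      rw [sum_congr rfl hpt, sum_add_distrib, ← mul_sum, sum_add_distrib, hc1, hc2, hsum]
      have hX3 : t * (h * X.card) ≤
          t * (((X ×ˢ (S \ X)).filter fun p => F p.1 p.2).card : ℝ) :=
        mul_le_mul_of_nonneg_left hX2 ht0.le
      nlinarith

open Classical in
/-- (2) Functions with small support. PROOF. Apply (1) to `a = g ^ 2`:
`2 h ∑ g² ≤ ∑ |g u² - g v²| = ∑ |g u - g v| |g u + g v|`, so by Cauchy-Schwarz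
(`Finset.sum_mul_sq_le_sq_mul_sq`) `4 h² (∑ g²)² ≤ D(g) ∑ (g u + g v)²` and
`∑_{F pairs} (g u + g v)² ≤ 2 ∑_{F pairs} (g u² + g v²) ≤ 4 Δ ∑_S g²` (each vertex is in at most `Δ`
pairs as first coordinate, and as second one by symmetry). Divide by `∑ g²` (if it is `0`, trivial). -/
theorem small_supp (S : Finset V) (F : V → V → Prop) (hF : ∀ u v, F u v → F v u) (Δ : ℕ)
    (hΔ : ∀ u ∈ S, (S.filter fun v => F u v).card ≤ Δ) (h : ℝ) (h0 : 0 < h)
    (hexp : ∀ X ⊆ S, 2 * X.card ≤ S.card →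
      h * X.card ≤ ((X ×ˢ (S \ X)).filter fun p => F p.1 p.2).card) (g : V → ℝ)
    (hg : ∀ u ∈ S, 0 ≤ g u) (hs : 2 * (S.filter fun u => 0 < g u).card ≤ S.card) :
    ∑ u ∈ S, g u ^ 2 ≤
      Δ / h ^ 2 * ∑ p ∈ (S ×ˢ S).filter (fun p => F p.1 p.2), (g p.1 - g p.2) ^ 2 := by
  set P := (S ×ˢ S).filter (fun p => F p.1 p.2) with hP
  set A := ∑ u ∈ S, g u ^ 2 with hA
  have hA0 : 0 ≤ A := sum_nonneg fun u _ => sq_nonneg _
  have hD0 : 0 ≤ ∑ p ∈ P, (g p.1 - g p.2) ^ 2 := sum_nonneg fun u _ => sq_nonneg _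
  have h1 := level_sum S F hF h hexp (fun u => g u ^ 2) (fun u _ => sq_nonneg _) (by
    refine le_trans ?_ hs
    apply Nat.mul_le_mul_left
    apply card_le_card
    intro u hu
    rw [mem_filter] at hu ⊢
    refine ⟨hu.1, ?_⟩
    have h2 := hg u hu.1
    rcases h2.lt_or_eq with h3 | h3
    · exact h3
    · exfalso
      have h4 := hu.2
      rw [← h3] at h4
      simp at h4)
  have h2 : ∑ p ∈ P, |g p.1 ^ 2 - g p.2 ^ 2| = ∑ p ∈ P, |g p.1 - g p.2| * |g p.1 + g p.2| := by
    refine sum_congr rfl fun p _ => ?_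
    rw [← abs_mul]
    congr 1
    ring
  have h3 : (∑ p ∈ P, |g p.1 - g p.2| * |g p.1 + g p.2|) ^ 2 ≤
      (∑ p ∈ P, (g p.1 - g p.2) ^ 2) * ∑ p ∈ P, (g p.1 + g p.2) ^ 2 := by
    have := sum_mul_sq_le_sq_mul_sq P (fun p => |g p.1 - g p.2|) (fun p => |g p.1 + g p.2|)
    simpa only [sq_abs] using this
  have h4 : ∑ p ∈ P, g p.1 ^ 2 ≤ Δ * A := by
    rw [hP, sum_filter, sum_product, hA, mul_sum]
    refine sum_le_sum fun u hu => ?_
    have h5 : ∑ v ∈ S, (if F (u, v).1 (u, v).2 then g (u, v).1 ^ 2 else 0) =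
        ((S.filter fun v => F u v).card : ℝ) * g u ^ 2 := by
      rw [← sum_filter]
      simp
    rw [h5]
    have h6 : ((S.filter fun v => F u v).card : ℝ) ≤ Δ := by exact_mod_cast hΔ u hu
    exact mul_le_mul_of_nonneg_right h6 (sq_nonneg _)
  have h5 : ∑ p ∈ P, g p.2 ^ 2 = ∑ p ∈ P, g p.1 ^ 2 := by
    refine sum_bij (fun p _ => (p.2, p.1)) ?_ ?_ ?_ ?_
    · intro p hp
      simp only [hP, mem_filter, mem_product] at hp ⊢
      exact ⟨⟨hp.1.2, hp.1.1⟩, hF _ _ hp.2⟩
    · intro p _ p' _ hpp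
      simp only [Prod.mk.injEq] at hpp
      exact Prod.ext hpp.2 hpp.1
    · intro p hp
      refine ⟨(p.2, p.1), ?_, rfl⟩
      simp only [hP, mem_filter, mem_product] at hp ⊢
      exact ⟨⟨hp.1.2, hp.1.1⟩, hF _ _ hp.2⟩
    · intro p _
      rfl
  have h6 : ∑ p ∈ P, (g p.1 + g p.2) ^ 2 ≤ 4 * (Δ * A) := by
    calc ∑ p ∈ P, (g p.1 + g p.2) ^ 2 ≤ ∑ p ∈ P, (2 * g p.1 ^ 2 + 2 * g p.2 ^ 2) :=
          sum_le_sum fun p _ => by nlinarith [sq_nonneg (g p.1 - g p.2)]
      _ = 2 * ∑ p ∈ P, g p.1 ^ 2 + 2 * ∑ p ∈ P, g p.2 ^ 2 := by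
          rw [sum_add_distrib, mul_sum, mul_sum]
      _ ≤ 4 * (Δ * A) := by rw [h5]; linarith
  rw [h2] at h1
  have h7 : (2 * h * A) ^ 2 ≤ (∑ p ∈ P, (g p.1 - g p.2) ^ 2) * (4 * (Δ * A)) := by
    have h8 : 0 ≤ 2 * h * A := by positivity
    calc (2 * h * A) ^ 2 ≤ (∑ p ∈ P, |g p.1 - g p.2| * |g p.1 + g p.2|) ^ 2 :=
          pow_le_pow_left₀ h8 h1 2
      _ ≤ _ := h3
      _ ≤ _ := mul_le_mul_of_nonneg_left h6 hD0
  rcases hA0.lt_or_eq with h8 | h8
  · rw [div_mul_eq_mul_div, le_div_iff₀ (by positivity)]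
    have h9 : A * (A * h ^ 2) ≤ A * (Δ * ∑ p ∈ P, (g p.1 - g p.2) ^ 2) := by nlinarith
    exact le_of_mul_le_mul_left h9 h8
  · rw [← h8]
    positivity

open Classical in
/-- (3) Median. PROOF. `c` := the smallest of the values `f u` (`u ∈ S`) such that
`S.card ≤ 2 * (S.filter fun v => f v ≤ f u).card` (the maximum of `f` is one of them). -/
theorem median (S : Finset V) (hS : S.Nonempty) (f : V → ℝ) :
    ∃ c, 2 * (S.filter fun u => c < f u).card ≤ S.card ∧
      2 * (S.filter fun u => f u < c).card ≤ S.card := by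
  set T := S.filter fun u => S.card ≤ 2 * (S.filter fun v => f v ≤ f u).card with hT
  have hTne : T.Nonempty := by
    obtain ⟨m, hm, hmax⟩ := exists_max_image S f hS
    refine ⟨m, ?_⟩
    rw [hT, mem_filter]
    refine ⟨hm, ?_⟩
    rw [filter_true_of_mem hmax]
    omega
  obtain ⟨u0, hu0, hmin⟩ := exists_min_image T f hTne
  have hu0' := (mem_filter.1 hu0).2
  refine ⟨f u0, ?_, ?_⟩
  · have h1 := card_filter_add_card_filter_not (s := S) (fun v => f v ≤ f u0)
    have h2 : (S.filter fun v => ¬ f v ≤ f u0) = S.filter fun u => f u0 < f u := by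
      ext u
      simp
    rw [h2] at h1
    omega
  · rcases (S.filter fun u => f u < f u0).eq_empty_or_nonempty with he | hne
    · rw [he]
      simp
    · obtain ⟨u1, hu1, hmax⟩ := exists_max_image _ f hne
      rw [mem_filter] at hu1
      have h1 : u1 ∉ T := fun h => by
        have := hmin u1 h
        linarith [hu1.2]
      have h2 : ¬ S.card ≤ 2 * (S.filter fun v => f v ≤ f u1).card := fun h =>
        h1 (mem_filter.2 ⟨hu1.1, h⟩)
      have h3 : (S.filter fun u => f u < f u0) ⊆ S.filter fun v => f v ≤ f u1 := by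
        intro u hu
        have h4 := hmax u hu
        rw [mem_filter] at hu ⊢
        exact ⟨hu.1, h4⟩
      have h4 := card_le_card h3
      omega

open Classical in
/-- Cheeger's inequality for a finite graph with bounded degree.
PROOF. `S = ∅` trivial. Otherwise `c` a median (3), `g₊ u = max (f u - c) 0`,
`g₋ u = max (c - f u) 0`; (2) for both; `g₊² + g₋² = (f - c)²` and
`(g₊ u - g₊ v)² + (g₋ u - g₋ v)² ≤ (f u - f v)²`; the mean minimises `∑ (f - c)²`:
`∑ (f u - mean)² = ∑ (f u - c)² - |S| (c - mean)²`. -/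
theorem cheeger (S : Finset V) (F : V → V → Prop)
    (hF : ∀ u v, F u v → F v u) (Δ : ℕ) (hΔ : ∀ u ∈ S, (S.filter fun v => F u v).card ≤ Δ)
    (h : ℝ) (h0 : 0 < h)
    (hexp : ∀ X ⊆ S, 2 * X.card ≤ S.card →
      h * X.card ≤ ((X ×ˢ (S \ X)).filter fun p => F p.1 p.2).card) (f : V → ℝ) :
    ∑ u ∈ S, (f u - (∑ v ∈ S, f v) / S.card) ^ 2 ≤
      Δ / h ^ 2 * ∑ p ∈ (S ×ˢ S).filter (fun p => F p.1 p.2), (f p.1 - f p.2) ^ 2 := by
  rcases S.eq_empty_or_nonempty with rfl | hS
  · simp
  obtain ⟨c, hc1, hc2⟩ := median S hS f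
  have hS0 : (0 : ℝ) < S.card := by exact_mod_cast hS.card_pos
  have e1 : (S.filter fun u => 0 < max (f u - c) 0) = S.filter fun u => c < f u := by
    ext u
    simp
  have e2 : (S.filter fun u => 0 < max (c - f u) 0) = S.filter fun u => f u < c := by
    ext u
    simp
  have h1 := small_supp S F hF Δ hΔ h h0 hexp (fun u => max (f u - c) 0)
    (fun u _ => le_max_right _ _) (by rw [e1]; exact hc1)
  have h2 := small_supp S F hF Δ hΔ h h0 hexp (fun u => max (c - f u) 0)
    (fun u _ => le_max_right _ _) (by rw [e2]; exact hc2)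
  have h3 : ∑ u ∈ S, (f u - c) ^ 2 =
      ∑ u ∈ S, max (f u - c) 0 ^ 2 + ∑ u ∈ S, max (c - f u) 0 ^ 2 := by
    rw [← sum_add_distrib]
    refine sum_congr rfl fun u _ => ?_
    rcases le_total (f u) c with h4 | h4
    · rw [max_eq_right (by linarith : f u - c ≤ 0), max_eq_left (by linarith : 0 ≤ c - f u)]
      ring
    · rw [max_eq_left (by linarith : 0 ≤ f u - c), max_eq_right (by linarith : c - f u ≤ 0)]
      ring
  have h4 : ∑ p ∈ (S ×ˢ S).filter (fun p => F p.1 p.2),
        (max (f p.1 - c) 0 - max (f p.2 - c) 0) ^ 2 +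
      ∑ p ∈ (S ×ˢ S).filter (fun p => F p.1 p.2),
        (max (c - f p.1) 0 - max (c - f p.2) 0) ^ 2 ≤
      ∑ p ∈ (S ×ˢ S).filter (fun p => F p.1 p.2), (f p.1 - f p.2) ^ 2 := by
    rw [← sum_add_distrib]
    refine sum_le_sum fun p _ => ?_
    rcases le_total (f p.1) c with h5 | h5 <;> rcases le_total (f p.2) c with h6 | h6
    · rw [max_eq_right (by linarith : f p.1 - c ≤ 0), max_eq_left (by linarith : 0 ≤ c - f p.1),
        max_eq_right (by linarith : f p.2 - c ≤ 0), max_eq_left (by linarith : 0 ≤ c - f p.2)]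
      apply le_of_eq
      ring
    · rw [max_eq_right (by linarith : f p.1 - c ≤ 0), max_eq_left (by linarith : 0 ≤ c - f p.1),
        max_eq_left (by linarith : 0 ≤ f p.2 - c), max_eq_right (by linarith : c - f p.2 ≤ 0)]
      nlinarith [mul_nonneg (by linarith : 0 ≤ c - f p.1) (by linarith : 0 ≤ f p.2 - c)]
    · rw [max_eq_left (by linarith : 0 ≤ f p.1 - c), max_eq_right (by linarith : c - f p.1 ≤ 0),
        max_eq_right (by linarith : f p.2 - c ≤ 0), max_eq_left (by linarith : 0 ≤ c - f p.2)]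
      nlinarith [mul_nonneg (by linarith : 0 ≤ f p.1 - c) (by linarith : 0 ≤ c - f p.2)]
    · rw [max_eq_left (by linarith : 0 ≤ f p.1 - c), max_eq_right (by linarith : c - f p.1 ≤ 0),
        max_eq_left (by linarith : 0 ≤ f p.2 - c), max_eq_right (by linarith : c - f p.2 ≤ 0)]
      apply le_of_eq
      ring
  have h5 : ∑ u ∈ S, (f u - (∑ v ∈ S, f v) / S.card) ^ 2 ≤ ∑ u ∈ S, (f u - c) ^ 2 := by
    set μ := (∑ v ∈ S, f v) / S.card with hμ
    have h6 : ∑ u ∈ S, f u = μ * S.card := by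
      rw [hμ]
      field_simp
    have h7 : ∑ u ∈ S, (f u - c) ^ 2 =
        ∑ u ∈ S, (f u - μ) ^ 2 + (S.card : ℝ) * (μ - c) ^ 2 := by
      have h8 : ∀ u ∈ S, (f u - c) ^ 2 =
          (f u - μ) ^ 2 + (2 * (μ - c) * f u + ((μ - c) ^ 2 - 2 * (μ - c) * μ)) := by
        intro u _
        ring
      rw [sum_congr rfl h8, sum_add_distrib, sum_add_distrib, ← mul_sum, h6, sum_const,
        nsmul_eq_mul]
      ring
    rw [h7]
    have : 0 ≤ (S.card : ℝ) * (μ - c) ^ 2 := mul_nonneg hS0.le (sq_nonneg _)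
    linarith
  have h6 : 0 ≤ (Δ : ℝ) / h ^ 2 := div_nonneg (Nat.cast_nonneg _) (sq_nonneg _)
  calc ∑ u ∈ S, (f u - (∑ v ∈ S, f v) / S.card) ^ 2 ≤ ∑ u ∈ S, (f u - c) ^ 2 := h5
    _ = _ := h3
    _ ≤ _ := add_le_add h1 h2
    _ = Δ / h ^ 2 * (∑ p ∈ (S ×ˢ S).filter (fun p => F p.1 p.2),
          (max (f p.1 - c) 0 - max (f p.2 - c) 0) ^ 2 +
        ∑ p ∈ (S ×ˢ S).filter (fun p => F p.1 p.2),
          (max (c - f p.1) 0 - max (c - f p.2) 0) ^ 2) := by ring
    _ ≤ _ := mul_le_mul_of_nonneg_left h4 h6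

end RST.C
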