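import Mathlib

/-!
# C/Indep. Independent sets in digraphs of bounded outdegree
-/

open Finset

namespace RST.C

open Classical in
/-- The sum of the degrees is at most twice the sum of the outdegrees. -/
private theorem Indep_sum {ι : Type} (S : Finset ι) (F : ι → ι → Prop) (d : ℕ)
    (hd : ∀ i ∈ S, (S.filter fun j => j ≠ i ∧ F i j).card ≤ d) :
    ∑ i ∈ S, (S.filter fun j => j ≠ i ∧ (F i j ∨ F j i)).card ≤ ∑ _i ∈ S, 2 * d := by
  have h1 : ∀ i ∈ S, (S.filter fun j => j ≠ i ∧ (F i j ∨ F j i)).card ≤
      (S.filter fun j => j ≠ i ∧ F i j).card + (S.filter fun j => j ≠ i ∧ F j i).card := by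
    intro i _
    refine le_trans (card_le_card ?_) (card_union_le _ _)
    intro j hj
    rw [mem_filter] at hj
    rw [mem_union, mem_filter, mem_filter]
    tauto
  have h2 : ∑ i ∈ S, (S.filter fun j => j ≠ i ∧ F j i).card =
      ∑ i ∈ S, (S.filter fun j => j ≠ i ∧ F i j).card := by
    simp only [card_filter]
    rw [sum_comm]
    refine sum_congr rfl fun i _ => sum_congr rfl fun j _ => ?_
    simp only [ne_comm]
  calc ∑ i ∈ S, (S.filter fun j => j ≠ i ∧ (F i j ∨ F j i)).card
      ≤ ∑ i ∈ S, ((S.filter fun j => j ≠ i ∧ F i j).card +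
          (S.filter fun j => j ≠ i ∧ F j i).card) := sum_le_sum h1
    _ = ∑ i ∈ S, (S.filter fun j => j ≠ i ∧ F i j).card +
          ∑ i ∈ S, (S.filter fun j => j ≠ i ∧ F i j).card := by rw [sum_add_distrib, h2]
    _ ≤ ∑ _i ∈ S, d + ∑ _i ∈ S, d := add_le_add (sum_le_sum hd) (sum_le_sum hd)
    _ = ∑ _i ∈ S, 2 * d := by rw [← sum_add_distrib]; exact sum_congr rfl fun _ _ => by ring

open Classical in
/-- A digraph with outdegrees at most `d` has an independent set of proportion `1/(2d+1)`.
PROOF. Strong induction on `S.card`. `S = ∅`: `I = ∅`. Otherwise the number of pairs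
`(i,j) ∈ S ×ˢ S`, `j ≠ i`, `F i j` is at most `d * S.card`; hence
`∑_{i ∈ S} (outdeg i + indeg i) ≤ 2 d |S|` and some `i ∈ S` has
`(S.filter fun j => j ≠ i ∧ (F i j ∨ F j i)).card ≤ 2 * d`. Remove `i` and this set: `S'` has at least
`|S| - (2d+1)` elements, the hypothesis passes to `S'`; take `I = insert i I'`. -/
theorem indep_set {ι : Type} [Fintype ι] (S : Finset ι) (F : ι → ι → Prop) (d : ℕ)
    (hd : ∀ i ∈ S, (S.filter fun j => j ≠ i ∧ F i j).card ≤ d) :
    ∃ I ⊆ S, S.card ≤ (2 * d + 1) * I.card ∧ ∀ i ∈ I, ∀ j ∈ I, i ≠ j → ¬ F i j := by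
  induction S using Finset.strongInduction with
  | H S ih =>
    rcases S.eq_empty_or_nonempty with rfl | hS
    · exact ⟨∅, Finset.Subset.refl _, by simp, by simp⟩
    obtain ⟨i, hi, hi2⟩ := exists_le_of_sum_le hS (Indep_sum S F d hd)
    set N := S.filter fun j => j ≠ i ∧ (F i j ∨ F j i) with hN
    set S' := (S.erase i) \ N with hS'
    have hsub : S' ⊆ S := sdiff_subset.trans (erase_subset _ _)
    have hiS' : i ∉ S' := by
      intro h
      exact notMem_erase i S (mem_sdiff.1 h).1
    have hss : S' ⊂ S := by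
      refine Finset.ssubset_iff_subset_ne.2 ⟨hsub, ?_⟩
      intro h
      rw [h] at hiS'
      exact hiS' hi
    obtain ⟨I, hI1, hI2, hI3⟩ := ih S' hss fun j hj =>
      (card_le_card (filter_subset_filter _ hsub)).trans (hd j (hsub hj))
    refine ⟨insert i I, ?_, ?_, ?_⟩
    · intro j hj
      rcases mem_insert.1 hj with rfl | hj
      · exact hi
      · exact hsub (hI1 hj)
    · have h1 : S ⊆ insert i (N ∪ S') := by
        intro j hj
        by_cases hji : j = i
        · rw [hji]
          exact mem_insert_self _ _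
        · refine mem_insert_of_mem (mem_union.2 ?_)
          by_cases hjN : j ∈ N
          · exact Or.inl hjN
          · exact Or.inr (mem_sdiff.2 ⟨mem_erase.2 ⟨hji, hj⟩, hjN⟩)
      have h2 := card_le_card h1
      have h3 := card_insert_le i (N ∪ S')
      have h4 := card_union_le N S'
      have h5 : i ∉ I := fun h => hiS' (hI1 h)
      rw [card_insert_of_notMem h5]
      have h6 : (2 * d + 1) * (I.card + 1) = (2 * d + 1) * I.card + (2 * d + 1) := by ring
      omega
    · have h1 : ∀ j ∈ I, ¬ (F i j ∨ F j i) := by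
        intro j hj h
        have h2 := mem_sdiff.1 (hI1 hj)
        exact h2.2 (mem_filter.2 ⟨hsub (hI1 hj), (mem_erase.1 h2.1).1, h⟩)
      intro j hj k hk hjk
      rcases mem_insert.1 hj with hj' | hj'
      · rcases mem_insert.1 hk with hk' | hk'
        · exact absurd (hj'.trans hk'.symm) hjk
        · rw [hj']
          exact fun h => h1 k hk' (Or.inl h)
      · rcases mem_insert.1 hk with hk' | hk'
        · rw [hk']
          exact fun h => h1 j hj' (Or.inr h)
        · exact hI3 j hj' k hk' hjk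

end RST.C
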